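import Pool.Agent.Helper34.FF.Goals1

/-! Packet `StmtChord` for MP_7cb822_co. -/

namespace Pool.Agent.Helper65.FF

open Finset Pool.Agent.Helper34.FF
open scoped symmDiff Classical

lemma rev_isW {V : Type} {G : SimpleGraph V} {k : ℕ} {a : ℕ → V} {x y : V} (h : IsW G k a x y) :
    IsW G k (fun t => a (k - t)) y x := by
  obtain ⟨h1, h2, h3⟩ := h
  refine ⟨by simpa using h2, by simpa using h1, ?_⟩
  intro i hi
  have h4 := h3 (k - (i + 1)) (by omega)
  have e : k - (i + 1) + 1 = k - i := by omega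
  rw [e] at h4
  exact h4.symm

lemma rev_inj {V : Type} {k : ℕ} {a : ℕ → V} (h : Inj k a) : Inj k (fun t => a (k - t)) := by
  intro i hi j hj hij
  have := h (k - i) (by omega) (k - j) (by omega) hij
  omega

lemma rev_wE {V : Type} (k : ℕ) (a : ℕ → V) : wE k (fun t => a (k - t)) = wE k a := by
  ext e
  simp only [wE, mem_image, mem_range]
  constructor
  · rintro ⟨t, ht, rfl⟩
    refine ⟨k - (t + 1), by omega, ?_⟩
    rw [show k - (t + 1) + 1 = k - t by omega]
    exact Sym2.eq_swap
  · rintro ⟨t, ht, rfl⟩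
    refine ⟨k - (t + 1), by omega, ?_⟩
    rw [show k - (k - (t + 1)) = t + 1 by omega, show k - (k - (t + 1) + 1) = t by omega]
    exact Sym2.eq_swap

lemma symm_aux {α : Type} [DecidableEq α] {A₁ A₂ W : Finset α} (d1 : Disjoint A₁ A₂) (d2 : Disjoint W A₁)
    (d3 : Disjoint W A₂) : (A₁ ∆ A₂) ∆ (W ∪ A₁) = W ∪ A₂ := by
  ext e
  have h1 : e ∈ A₁ → e ∉ A₂ := fun h => Finset.disjoint_left.1 d1 h
  have h2 : e ∈ W → e ∉ A₁ := fun h => Finset.disjoint_left.1 d2 h
  have h3 : e ∈ W → e ∉ A₂ := fun h => Finset.disjoint_left.1 d3 h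
  simp only [mem_symmDiff, mem_union]
  by_cases w : e ∈ W
  · have := h2 w
    have := h3 w
    simp [*]
  · by_cases a : e ∈ A₁
    · have := h1 a
      simp [*]
    · simp [*]

/-- `StmtChord` with integer positions. -/
def StmtChordZ : Prop := ∀ (V F : Type) [Fintype V] [Fintype F] (T : Tri V F), T.Sphere →
  ∀ X l c, T.Enum X l c → ∀ i j : ℤ, i < j → j < i + l → ∀ k a, IsW T.G k a (c i) (c j) →
    Inj k a → (∀ t, 0 < t → t < k → ∀ q, a t ≠ c q) →
    (∀ t < k, s(a t, a (t + 1)) ∈ T.inn X) →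
    ∃ Y₁ Y₂, Y₁ ∪ Y₂ = X ∧ Disjoint Y₁ Y₂ ∧ T.Bond Y₁ ∧ T.Bond Y₂ ∧
      T.bdry Y₁ = wE k a ∪ arcE c i j ∧ T.bdry Y₂ = wE k a ∪ arcE c j (i + l) ∧
      (T.len Y₁ : ℤ) = k + (j - i) ∧ (T.len Y₂ : ℤ) = k + (l - (j - i))

theorem pf_StmtChordZ (hAlg : StmtAlg) (hNoCut : StmtNoCut) (hBond : StmtBond)
    (hEF : StmtEnumFacts) (hTP : StmtTwoPaths) : StmtChordZ := by
  intro V F _ _ T hS X l c hE i j hij hjl k a hW hInj hav hinn
  obtain ⟨hsym, hcompl, -, htwo, -, hdisj, -⟩ := hAlg V F T
  obtain ⟨hBX, hlen, hVc, hVm, -, harc, hpath, -⟩ := hEF V F T hS X l c hE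
  obtain ⟨hcard1, hsub1, hsd, hdis⟩ := harc i j hij.le hjl.le
  obtain ⟨hcard2, hsub2, -, -⟩ := harc j (i + l) hjl.le (by omega)
  obtain ⟨p1, p2, p3⟩ := hpath i j hij.le hjl
  obtain ⟨q1, q2, q3⟩ := hpath j (i + l) hjl.le (by omega)
  rw [hE.per i] at q1
  -- the end points are different
  have hne : c i ≠ c j := by
    intro h
    obtain ⟨m, hm⟩ := hE.inj i j h
    have hl : (0 : ℤ) < l := by have := hE.three; omega
    have h1 : -(l : ℤ) < l * m := by omega
    have h2 : (l : ℤ) * m < 0 := by omega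
    have h3 : m < 0 := by
      by_contra hc
      push Not at hc
      have := mul_nonneg hl.le hc
      omega
    have h4 : -1 < m := by
      by_contra hc
      push Not at hc
      have : (l : ℤ) * m ≤ l * (-1) := mul_le_mul_of_nonneg_left hc hl.le
      omega
    omega
  have hk : 1 ≤ k := by
    rcases Nat.eq_zero_or_pos k with h | h
    · subst h
      exact absurd (hW.1.symm.trans hW.2.1) hne
    · exact h
  have hWinn : wE k a ⊆ T.inn X := by
    intro e he
    simp only [wE, mem_image, mem_range] at he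
    obtain ⟨t, ht, rfl⟩ := he
    exact hinn t ht
  have hWbd : ∀ e ∈ wE k a, e ∉ T.bdry X := by
    intro e he hb
    exact Finset.disjoint_left.1 (hdisj X) hb (hWinn he)
  -- lengths
  have h3a : 3 ≤ k + (j - i).toNat := by
    by_contra hc
    have hk1 : k = 1 := by omega
    have hj1 : j = i + 1 := by omega
    subst hk1
    have h1 := hinn 0 (by omega)
    rw [hW.1, zero_add, hW.2.1, hj1] at h1
    exact Finset.disjoint_left.1 (hdisj X) ((hE.bd _).2 ⟨i, rfl⟩) h1
  have h3b : 3 ≤ k + (i + l - j).toNat := by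
    by_contra hc
    have hk1 : k = 1 := by omega
    have hj1 : i + (l : ℤ) = j + 1 := by omega
    subst hk1
    have h1 := hinn 0 (by omega)
    rw [hW.1, zero_add, hW.2.1] at h1
    have h2 : s(c i, c j) = s(c j, c (j + 1)) := by
      rw [← hj1, hE.per i]
      exact Sym2.eq_swap
    rw [h2] at h1
    exact Finset.disjoint_left.1 (hdisj X) ((hE.bd _).2 ⟨j, rfl⟩) h1
  -- two paths
  have TP1 := hTP V T.G k (j - i).toNat a (fun t : ℕ => c (i + t)) (c i) (c j) hW p1 hne hInj p2
    h3a (by
      intro t ht t' ht' h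
      rcases Nat.eq_zero_or_pos t with h0 | h0
      · left
        subst h0
        refine ⟨rfl, ?_⟩
        have h1 : (fun t : ℕ => c (i + t)) 0 = (fun t : ℕ => c (i + t)) t' := by
          change c (i + ((0 : ℕ) : ℤ)) = c (i + t')
          rw [← h, hW.1]; simp
        exact (p2 0 (by omega) t' ht' h1).symm
      · rcases Nat.lt_or_ge t k with h1 | h1
        · exact absurd h (hav t h0 h1 _)
        · right
          have h2 : t = k := le_antisymm ht h1
          refine ⟨h2, ?_⟩
          have h3 : (fun t : ℕ => c (i + t)) (j - i).toNat = (fun t : ℕ => c (i + t)) t' := by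
            change (fun t : ℕ => c (i + t)) (j - i).toNat = c (i + t')
            rw [← h, h2, hW.2.1]
            exact p1.2.1
          exact (p2 _ le_rfl t' ht' h3).symm)
  have TP2 := hTP V T.G k (i + l - j).toNat (fun t => a (k - t)) (fun t : ℕ => c (j + t)) (c j)
    (c i) (rev_isW hW) q1 hne.symm (rev_inj hInj) q2 h3b (by
      intro t ht t' ht' h
      have h' : a (k - t) = c (j + t') := h
      rcases Nat.eq_zero_or_pos t with h0 | h0
      · left
        subst h0
        refine ⟨rfl, ?_⟩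
        have h1 : (fun t : ℕ => c (j + t)) 0 = (fun t : ℕ => c (j + t)) t' := by
          change c (j + ((0 : ℕ) : ℤ)) = c (j + t')
          rw [← h', Nat.sub_zero, hW.2.1]; simp
        exact (q2 0 (by omega) t' ht' h1).symm
      · rcases Nat.lt_or_ge t k with h1 | h1
        · exact absurd h' (hav (k - t) (by omega) (by omega) _)
        · right
          have h2 : t = k := le_antisymm ht h1
          refine ⟨h2, ?_⟩
          have h3 : (fun t : ℕ => c (j + t)) (i + l - j).toNat = (fun t : ℕ => c (j + t)) t' := by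
            change (fun t : ℕ => c (j + t)) (i + l - j).toNat = c (j + t')
            rw [← h', h2, Nat.sub_self, hW.1]
            exact q1.2.1
          exact (q2 _ le_rfl t' ht' h3).symm)
  rw [p3] at TP1
  rw [q3, rev_wE] at TP2
  obtain ⟨-, c1, ev1, min1⟩ := TP1
  obtain ⟨-, c2, ev2, min2⟩ := TP2
  -- the face set
  have hedge : ∀ e ∈ wE k a ∪ arcE c i j, e ∈ T.G.edgeSet := by
    intro e he
    rw [mem_union] at he
    rcases he with he | he
    · have := hWinn he
      simp only [Tri.inn, mem_filter] at this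
      exact this.2.1
    · have := hsub1 he
      simp only [Tri.bdry, mem_filter] at this
      exact this.2.1
  obtain ⟨Y, hY⟩ := hS.span _ hedge ev1
  have hcut : ∀ e ∈ T.bdry Y, e ∉ T.inn Xᶜ := by
    intro e he hc
    rw [hY, mem_union] at he
    rcases he with he | he
    · have h1 := hWinn he
      have h2 := htwo e (hedge e (mem_union_left _ he))
      simp only [Tri.inn, mem_filter, mem_univ, true_and] at h1 hc
      have h3 : (univ.filter fun f => T.on e f) =
          (X.filter fun f => T.on e f) ∪ (Xᶜ.filter fun f => T.on e f) := by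
        rw [← filter_union, union_compl]
      have h4 : Disjoint (X.filter fun f => T.on e f) (Xᶜ.filter fun f => T.on e f) :=
        disjoint_filter_filter disjoint_compl_right
      rw [h3, card_union_of_disjoint h4, h1.2, hc.2] at h2
      omega
    · have h1 := hsub1 he
      rw [← hcompl X] at h1
      exact Finset.disjoint_left.1 (hdisj Xᶜ) h1 hc
  have hY1 : ∃ Y₁ ⊆ X, T.bdry Y₁ = wE k a ∪ arcE c i j := by
    rcases hNoCut V F T Xᶜ Y hBX.2 hcut with h | h
    · refine ⟨Yᶜ, ?_, by rw [hcompl, hY]⟩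
      intro f hf
      by_contra hc
      exact (mem_compl.1 hf) (h (mem_compl.2 hc))
    · refine ⟨Y, ?_, hY⟩
      intro f hf
      by_contra hc
      exact Finset.disjoint_left.1 h (mem_compl.2 hc) hf
  obtain ⟨Y₁, hY₁X, hbY₁⟩ := hY1
  have hbY₂ : T.bdry (X \ Y₁) = wE k a ∪ arcE c j (i + l) := by
    have e1 : X \ Y₁ = X ∆ Y₁ := by
      ext f
      rw [mem_sdiff, mem_symmDiff]
      constructor
      · intro h; exact Or.inl h
      · rintro (h | h)
        · exact h
        · exact absurd (hY₁X h.1) h.2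
    rw [e1, hsym, hbY₁, ← hsd]
    exact symm_aux hdis (Finset.disjoint_left.2 fun e h h' => hWbd e h (hsub1 h'))
      (Finset.disjoint_left.2 fun e h h' => hWbd e h (hsub2 h'))
  have hWne : (wE k a).Nonempty := by
    refine ⟨s(a 0, a 1), ?_⟩
    simp only [wE, mem_image, mem_range]
    exact ⟨0, by omega, by simp⟩
  refine ⟨Y₁, X \ Y₁, ?_, disjoint_sdiff, ?_, ?_, hbY₁, hbY₂, ?_, ?_⟩
  · rw [union_comm]; exact sdiff_union_of_subset hY₁X
  · apply (hBond V F T hS).1
    · rw [hbY₁]; exact hWne.mono subset_union_left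
    · rw [hbY₁]; exact min1
  · apply (hBond V F T hS).1
    · rw [hbY₂]; exact hWne.mono subset_union_left
    · rw [hbY₂]; exact min2
  · rw [Tri.len, hbY₁, c1]
    push_cast
    omega
  · rw [Tri.len, hbY₂, c2]
    push_cast
    omega

theorem pf_StmtChord (hAlg : StmtAlg) (hNoCut : StmtNoCut) (hBond : StmtBond)
    (hEF : StmtEnumFacts) (hTP : StmtTwoPaths) : StmtChord := by
  intro V F _ _ T hS X l c hE i j hij hjl k a hW hInj hav hinn
  exact pf_StmtChordZ hAlg hNoCut hBond hEF hTP V F T hS X l c hE i j (by omega) (by omega) k a hW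
    hInj hav hinn

end Pool.Agent.Helper65.FF
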